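import Pool.Agent.Y192.OG.StE

set_option autoImplicit false

/-!
# OG-E6: divisorial places
-/

namespace Pool.Agent.Y448.OG

open FF MvPolynomial Pool.Agent.W603.LV Pool.Agent.W602.GT Pool.Agent.TH122.AB
open Pool.Agent.Y192.OG

/-- divisorial places over an intermediate field are divisorial -/
theorem t_divtower : St_divtower := by
  intro k K _ _ _ _ _ _ d0 b d htr hb hd P hP
  obtain ⟨u, hu⟩ := hP
  obtain ⟨ι, z0, hz0⟩ := exists_isTranscendenceBasis' ℂ k
  have hcard : Cardinal.mk ι = (d0 : Cardinal) := by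
    rw [hz0.cardinalMk_eq_trdeg, htr]
  obtain ⟨ez⟩ : Nonempty (Fin d0 ≃ ι) := by
    rw [← Cardinal.eq, hcard]
    simp
  have hz : AlgebraicIndependent ℂ (z0 ∘ ez) := hz0.1.comp _ ez.injective
  let z : Fin d0 → k := z0 ∘ ez
  have hdd : d - 1 = (b - 1) + d0 := by omega
  let e : Fin (d - 1) ≃ Fin (b - 1) ⊕ Fin d0 := (finCongr hdd).trans finSumFinEquiv.symm
  let y : Fin (b - 1) ⊕ Fin d0 → K := Sum.elim u (fun i => algebraMap k K (z i))
  refine ⟨y ∘ e, fun F hF => ?_⟩
  set F' : MvPolynomial (Fin (b - 1) ⊕ Fin d0) ℂ := rename e F with hF'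
  have hF'0 : F' ≠ 0 := by
    intro h0
    apply hF
    apply rename_injective e e.injective
    rw [map_zero]
    exact h0
  have e1 : aeval (y ∘ e) F = aeval y F' := by
    rw [hF', aeval_rename]
  let g : MvPolynomial (Fin d0) ℂ →+* k := (aeval z : MvPolynomial (Fin d0) ℂ →ₐ[ℂ] k)
  have hg : Function.Injective g := hz
  set H : MvPolynomial (Fin (b - 1)) k := map g (sumRingEquiv ℂ (Fin (b - 1)) (Fin d0) F') with hH
  have hH0 : H ≠ 0 := by
    intro h0
    apply hF'0
    have h1 : sumRingEquiv ℂ (Fin (b - 1)) (Fin d0) F' = 0 := by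
      apply map_injective g hg
      rw [map_zero]
      exact h0
    exact (map_eq_zero_iff _ (sumRingEquiv ℂ (Fin (b - 1)) (Fin d0)).injective).1 h1
  have e2 : aeval u H = aeval y F' := by
    have h1 : ((aeval u : MvPolynomial (Fin (b - 1)) k →ₐ[k] K) :
        MvPolynomial (Fin (b - 1)) k →+* K).comp ((map g).comp
        (sumRingEquiv ℂ (Fin (b - 1)) (Fin d0)).toRingHom) =
        ((aeval y : MvPolynomial (Fin (b - 1) ⊕ Fin d0) ℂ →ₐ[ℂ] K) :
          MvPolynomial (Fin (b - 1) ⊕ Fin d0) ℂ →+* K) := by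
      apply MvPolynomial.ringHom_ext
      · intro c
        show aeval u (map g (sumRingEquiv ℂ (Fin (b - 1)) (Fin d0) (C c))) = aeval y (C c)
        rw [sumRingEquiv_C, map_C, aeval_C, aeval_C]
        have h3 : g (C c) = algebraMap ℂ k c := by
          show aeval z (C c) = _
          rw [aeval_C]
        rw [h3, ← IsScalarTower.algebraMap_apply]
      · rintro (i | i)
        · show aeval u (map g (sumRingEquiv ℂ (Fin (b - 1)) (Fin d0) (X (Sum.inl i)))) =
            aeval y (X (Sum.inl i))
          rw [sumRingEquiv_X_inl, map_X, aeval_X, aeval_X]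
          rfl
        · show aeval u (map g (sumRingEquiv ℂ (Fin (b - 1)) (Fin d0) (X (Sum.inr i)))) =
            aeval y (X (Sum.inr i))
          rw [sumRingEquiv_X_inr, map_C, aeval_C, aeval_X]
          have h3 : g (X i) = z i := by
            show aeval z (X i) = _
            rw [aeval_X]
          rw [h3]
          rfl
    exact RingHom.congr_fun h1 F'
  rw [e1, ← e2]
  exact hu H hH0

/-- the places over the places of irreducible polynomials are divisorial -/
theorem t_divadic : St_divadic := by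
  intro k F K _ _ _ _ _ _ _ b X hX p hp q hq P e hP
  have hpne : p ≠ 0 := hp.ne_zero
  -- a variable which occurs
  obtain ⟨j, hj⟩ : ∃ j, j ∈ p.vars := by
    by_contra hcon
    push Not at hcon
    have h1 : p.vars = ∅ := Finset.eq_empty_iff_forall_notMem.2 hcon
    rw [vars_eq_empty_iff_eq_C] at h1
    apply hp.not_isUnit
    rw [h1]
    have h2 : p.coeff 0 ≠ 0 := by
      intro h0
      rw [h0, map_zero] at h1
      exact hpne h1
    exact (isUnit_iff_ne_zero.2 h2).map C
  have hdj : p.degreeOf j ≠ 0 := mem_vars_iff_degreeOf_ne_zero.1 hj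
  obtain ⟨b', rfl⟩ : ∃ b', b = b' + 1 := ⟨b - 1, by have := j.pos; omega⟩
  refine ⟨fun i => algebraMap F K (X (j.succAbove i)), fun H hH => ?_⟩
  set R : MvPolynomial (Fin (b' + 1)) k := rename j.succAbove H with hR
  have hR0 : R ≠ 0 := by
    intro h0
    apply hH
    apply rename_injective j.succAbove Fin.succAbove_right_injective
    rw [map_zero]
    exact h0
  have e1 : aeval (fun i => algebraMap F K (X (j.succAbove i))) H =
      algebraMap F K (aeval X R) := by
    rw [hR, aeval_rename, ← aeval_algebraMap_apply]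
    rfl
  have hndvd : ¬ p ∣ R := by
    rintro ⟨s, hs⟩
    have hs0 : s ≠ 0 := by
      rintro rfl
      rw [mul_zero] at hs
      exact hR0 hs
    have h1 : degreeOf j R = degreeOf j p + degreeOf j s := by
      rw [hs, degreeOf_mul_eq hpne hs0]
    have h2 : degreeOf j R = 0 := by
      by_contra hcon
      have h3 : j ∈ R.vars := mem_vars_iff_degreeOf_ne_zero.2 hcon
      obtain ⟨i, _, hi⟩ := mem_vars_rename _ _ h3
      exact Fin.succAbove_ne j i hi
    omega
  have h1 := ((hq.2 R hR0).2).2 hndvd
  have h2 : aeval X R ≠ 0 := hX.ne hR0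
  constructor
  · show aeval (fun i => algebraMap F K (X (j.succAbove i))) H ≠ 0
    rw [e1]
    exact fun h0 => h2 ((map_eq_zero _).1 h0)
  · show P.ord (aeval (fun i => algebraMap F K (X (j.succAbove i))) H) = 0
    rw [e1, hP.2, h1, mul_zero]

/-- the places over the places of weights are divisorial -/
theorem t_divtor : St_divtor := by
  intro k F K _ _ _ _ _ _ _ b X hX w hw q hq P e hP
  classical
  -- a weight which is not zero
  obtain ⟨j, hj⟩ : ∃ j, w j ≠ 0 := by
    by_contra hcon
    push Not at hcon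
    obtain ⟨c, hc⟩ := hw
    simp [hcon] at hc
  obtain ⟨b', rfl⟩ : ∃ b', b = b' + 1 := ⟨b - 1, by have := j.pos; omega⟩
  have hXne : ∀ l, X l ≠ 0 := by
    intro l
    have := hX.ne (P := (MvPolynomial.X l : MvPolynomial (Fin (b' + 1)) k)) (X_ne_zero l)
    rwa [aeval_X] at this
  -- the order of the variables
  have hXord : ∀ l, q.ord (X l) = w l := by
    intro l
    obtain ⟨c, hc, hc2⟩ := (hq (MvPolynomial.X l) (X_ne_zero l)).2
    rw [aeval_X] at hc2
    rw [hc2]
    rw [support_X, Finset.mem_singleton] at hc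
    rw [hc]
    unfold tw
    rw [Finset.sum_eq_single l]
    · simp
    · intro i _ hi
      simp [hi.symm]
    · intro h
      exact absurd (Finset.mem_univ _) h
  -- the units
  let uF : Fin b' → F := fun i => X (j.succAbove i) ^ (w j) * X j ^ (-w (j.succAbove i))
  let E : (Fin b' →₀ ℕ) → Fin (b' + 1) → ℤ := fun β =>
    Fin.insertNth j (-∑ i, w (j.succAbove i) * β i) (fun i => w j * β i)
  have hEj : ∀ β, E β j = -∑ i, w (j.succAbove i) * β i := fun β => by simp [E]
  have hEi : ∀ β i, E β (j.succAbove i) = w j * β i := fun β i => by simp [E]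
  have hEinj : ∀ β β', E β = E β' → β = β' := by
    intro β β' h
    ext i
    have h1 := congrFun h (j.succAbove i)
    rw [hEi, hEi] at h1
    have h2 := mul_left_cancel₀ hj h1
    exact_mod_cast h2
  have hEw : ∀ β, ∑ l, w l * E β l = 0 := by
    intro β
    rw [Fin.sum_univ_succAbove _ j, hEj]
    simp only [hEi]
    rw [mul_neg, Finset.mul_sum, neg_add_eq_zero]
    exact Finset.sum_congr rfl fun i _ => by ring
  have huE : ∀ β : Fin b' →₀ ℕ, ∏ i, uF i ^ β i = ∏ l, X l ^ E β l := by
    intro β
    rw [Fin.prod_univ_succAbove _ j, hEj]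
    simp only [hEi, uF, mul_pow, Finset.prod_mul_distrib]
    rw [mul_comm]
    congr 1
    · have h1 : ∀ i, (X j ^ (-w (j.succAbove i))) ^ β i =
          X j ^ (-(w (j.succAbove i) * β i)) := by
        intro i
        rw [← zpow_natCast, ← zpow_mul]
        congr 1
        ring
      rw [Finset.prod_congr rfl fun i _ => h1 i, ← Finset.sum_neg_distrib]
      have h2 : ∀ (s : Finset (Fin b')) (f : Fin b' → ℤ),
          ∏ i ∈ s, X j ^ f i = X j ^ ∑ i ∈ s, f i := by
        intro s f
        induction s using Finset.induction_on with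
        | empty => simp
        | insert a s ha ih =>
          rw [Finset.prod_insert ha, Finset.sum_insert ha, ih, zpow_add₀ (hXne j)]
      exact h2 _ _
    · refine Finset.prod_congr rfl fun i _ => ?_
      rw [← zpow_natCast, ← zpow_mul]
  refine ⟨fun i => algebraMap F K (uF i), fun H hH => ?_⟩
  have e1 : aeval (fun i => algebraMap F K (uF i)) H = algebraMap F K (aeval uF H) := by
    rw [← aeval_algebraMap_apply]
    rfl
  have e2 : aeval uF H = ∑ β ∈ H.support, algebraMap k F (H.coeff β) * ∏ l, X l ^ E β l := by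
    rw [aeval_def, eval₂_eq']
    exact Finset.sum_congr rfl fun β _ => by rw [huE]
  -- the shift
  obtain ⟨M, hM⟩ : ∃ M : ℕ, ∀ β ∈ H.support, ∀ l, 0 ≤ E β l + M := by
    refine ⟨∑ β ∈ H.support, ∑ l, (E β l).natAbs, fun β hβ l => ?_⟩
    have h1 : (E β l).natAbs ≤ ∑ β ∈ H.support, ∑ l, (E β l).natAbs := by
      refine le_trans ?_ (Finset.single_le_sum (f := fun β => ∑ l, (E β l).natAbs)
        (fun _ _ => Nat.zero_le _) hβ)
      exact Finset.single_le_sum (f := fun l => (E β l).natAbs) (fun _ _ => Nat.zero_le _)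
        (Finset.mem_univ l)
    omega
  let Nn : (Fin b' →₀ ℕ) → (Fin (b' + 1) →₀ ℕ) := fun β =>
    Finsupp.equivFunOnFinite.symm fun l => (E β l + M).toNat
  have hNn : ∀ β ∈ H.support, ∀ l, ((Nn β l : ℕ) : ℤ) = E β l + M := by
    intro β hβ l
    have := hM β hβ l
    simp only [Nn, Finsupp.equivFunOnFinite_symm_apply_apply]
    omega
  have hNinj : ∀ β ∈ H.support, ∀ β' ∈ H.support, Nn β = Nn β' → β = β' := by
    intro β hβ β' hβ' h
    apply hEinj
    funext l
    have h1 := hNn β hβ l
    have h2 := hNn β' hβ' l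
    rw [h] at h1
    linarith
  let A : MvPolynomial (Fin (b' + 1)) k := ∑ β ∈ H.support, monomial (Nn β) (H.coeff β)
  have hAcoeff : ∀ c, A.coeff c = ∑ β ∈ H.support, if Nn β = c then H.coeff β else 0 := by
    intro c
    simp only [A, coeff_sum, coeff_monomial]
  have hA0 : A ≠ 0 := by
    intro h0
    obtain ⟨β, hβ⟩ : H.support.Nonempty := by
      rw [Finset.nonempty_iff_ne_empty]
      intro h
      exact hH (support_eq_empty.1 h)
    have h1 := hAcoeff (Nn β)
    rw [h0, coeff_zero, Finset.sum_eq_single β] at h1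
    · rw [if_pos rfl] at h1
      exact (mem_support_iff.1 hβ) h1.symm
    · intro β' hβ' hne
      rw [if_neg]
      intro h
      exact hne (hNinj β' hβ' β hβ h)
    · intro h
      exact absurd hβ h
  have hAsup : ∀ c ∈ A.support, ∃ β ∈ H.support, Nn β = c := by
    intro c hc
    by_contra hcon
    push Not at hcon
    apply mem_support_iff.1 hc
    rw [hAcoeff]
    apply Finset.sum_eq_zero
    intro β hβ
    rw [if_neg (hcon β hβ)]
  have hAtw : ∀ c ∈ A.support, tw w c = M * ∑ l, w l := by
    intro c hc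
    obtain ⟨β, hβ, rfl⟩ := hAsup c hc
    unfold tw
    have h1 : ∀ l, w l * ((Nn β l : ℕ) : ℤ) = w l * E β l + M * w l := by
      intro l
      rw [hNn β hβ l]
      ring
    rw [Finset.sum_congr rfl fun l _ => h1 l, Finset.sum_add_distrib, hEw, zero_add,
      ← Finset.mul_sum]
  have hAeval : aeval X A = (∏ l, X l) ^ M * aeval uF H := by
    rw [e2, Finset.mul_sum]
    simp only [A, map_sum]
    refine Finset.sum_congr rfl fun β hβ => ?_
    rw [aeval_monomial, Finsupp.prod_fintype _ _ (fun i => by simp), mul_left_comm]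
    congr 1
    rw [← Finset.prod_pow, ← Finset.prod_mul_distrib]
    refine Finset.prod_congr rfl fun l _ => ?_
    rw [← zpow_natCast, hNn β hβ l, zpow_add₀ (hXne l), zpow_natCast, mul_comm]
  have hprodne : (∏ l, X l) ^ M ≠ 0 :=
    pow_ne_zero _ (Finset.prod_ne_zero_iff.2 fun l _ => hXne l)
  have hprodord : q.ord ((∏ l, X l) ^ M) = M * ∑ l, w l := by
    rw [q.ord_pow]
    congr 1
    have h1 : ∀ s : Finset (Fin (b' + 1)), q.ord (∏ l ∈ s, X l) = ∑ l ∈ s, w l := by
      intro s
      induction s using Finset.induction_on with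
      | empty => simpa using q.ord_one
      | insert a s ha ih =>
        rw [Finset.prod_insert ha, Finset.sum_insert ha,
          q.ord_mul (hXne a) (Finset.prod_ne_zero_iff.2 fun l _ => hXne l), ih, hXord]
    exact h1 _
  have hAne : aeval X A ≠ 0 := hX.ne hA0
  have hyne : aeval uF H ≠ 0 := by
    intro h0
    rw [hAeval, h0, mul_zero] at hAne
    exact hAne rfl
  have hAord : q.ord (aeval X A) = M * ∑ l, w l := by
    obtain ⟨c, hc, hc2⟩ := (hq A hA0).2
    rw [hc2, hAtw c hc]
  have hyord : q.ord (aeval uF H) = 0 := by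
    rw [hAeval, q.ord_mul hprodne hyne, hprodord] at hAord
    linarith
  constructor
  · show aeval (fun i => algebraMap F K (uF i)) H ≠ 0
    rw [e1]
    exact fun h0 => hyne ((map_eq_zero _).1 h0)
  · show P.ord (aeval (fun i => algebraMap F K (uF i)) H) = 0
    rw [e1, hP.2, hyord, mul_zero]

end Pool.Agent.Y448.OG
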